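import Pool.Agent.Lib.MP_b3fcb1_lc.Seven

/-! Randomized list update in the standard (full cost) model: no randomized online algorithm is
`(3/2 + 29/25000)`-competitive against oblivious adversaries, so `c* ≥ 1.50116`. -/

namespace Pool.Agent.Results.MP_b3fcb1_lc.FullCostLowerBound

open Pool.Agent.Lib.MP_b3fcb1_lc

universe u

theorem result :
    (∀ n : ℕ, 10 ^ 9 ≤ n → ∀ (A : RandAlg.{u} n) (π : ItemList n) (a : ℝ),
      ∃ σ : List (Fin n),
        ENNReal.ofReal ((3 / 2 + 29 / 25000) * opt π σ + a) < A.expCost π σ) ∧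
    (∀ (c : ℝ) (A : ∀ n : ℕ, RandAlg.{u} n), Competitive c A → 3 / 2 + 29 / 25000 < c) := by
  have main : ∀ n : ℕ, 10 ^ 9 ≤ n → ∀ (A : RandAlg.{u} n) (π : ItemList n) (a : ℝ),
      ∃ σ : List (Fin n),
        ENNReal.ofReal ((3 / 2 + 29 / 25000) * opt π σ + a) < A.expCost π σ := by
    intro n hn A π a
    have hk : Seven.G.kap 6198901624 (29 / 25000) =
        10830817092 / 2000002 - 29 / 25000 * 620051587345 / 1000001 := by
      unfold Gadget.kap
      rw [Seven.Pen_eq, Seven.K2_eq, Seven.Wt_eq]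
      norm_num
    refine lower_bound_of Seven.G_ok Seven.w_pos ?_ ?_ Seven.cert (by norm_num) ?_ ?_ A π a
    · rw [Seven.Wt_eq]; norm_num
    · rw [Seven.pre_eq]; norm_num
    · rw [hk]; norm_num
    · unfold Gadget.eps
      rw [hk, Seven.pre_eq]
      have hL : Seven.G.L = 8 := rfl
      rw [hL]
      have hn0 : 1000000000 ≤ n := hn
      have hn' : (1000000000 : ℝ) ≤ (n : ℝ) := by exact_mod_cast hn0
      have hpos : (0 : ℝ) < n := by linarith
      have h1 : 0 < (n : ℝ) * ((10830817092 / 2000002 - 29 / 25000 * 620051587345 / 1000001) *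
          ((n : ℝ) / (4 * 1006 ^ 2) - 1 / 1006) - 29 / 25000 * n -
            (1 + 2 * (29 / 25000)) * (8 + 3)) := by
        apply mul_pos hpos
        norm_num
        linarith
      have h2 : (n : ℝ) * ((10830817092 / 2000002 - 29 / 25000 * 620051587345 / 1000001) *
          ((n : ℝ) / (4 * 1006 ^ 2) - 1 / 1006) - 29 / 25000 * n -
            (1 + 2 * (29 / 25000)) * (8 + 3)) =
          (10830817092 / 2000002 - 29 / 25000 * 620051587345 / 1000001) *
          ((n : ℝ) ^ 2 / (4 * ((1006 : ℕ) : ℝ) ^ 2) - n / ((1006 : ℕ) : ℝ)) -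
            29 / 25000 * (n : ℝ) ^ 2 - (1 + 2 * (29 / 25000)) * (((8 : ℕ) : ℝ) + 3) * n := by
        push_cast; ring
      rw [← h2]
      exact h1
  refine ⟨main, ?_⟩
  intro c A hA
  by_contra hc
  push Not at hc
  obtain ⟨a, ha⟩ := hA
  obtain ⟨σ, hσ⟩ := main (10 ^ 9) le_rfl (A (10 ^ 9)) (Equiv.refl _) a
  have h1 := ha (10 ^ 9) (Equiv.refl _) σ
  have h2 : ENNReal.ofReal (c * opt (Equiv.refl (Fin (10 ^ 9))) σ + a) ≤
      ENNReal.ofReal ((3 / 2 + 29 / 25000) * opt (Equiv.refl (Fin (10 ^ 9))) σ + a) := by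
    apply ENNReal.ofReal_le_ofReal
    have := mul_le_mul_of_nonneg_right hc (Nat.cast_nonneg (α := ℝ)
      (opt (Equiv.refl (Fin (10 ^ 9))) σ))
    linarith
  exact absurd hσ (not_lt.mpr (h1.trans h2))

end Pool.Agent.Results.MP_b3fcb1_lc.FullCostLowerBound
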