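import Pool.Agent.Lib.MP_b3fcb1_lc_proj.Main

/-! Randomized list update in the standard (full cost) model: projective algorithms (the order of
two items depends only on the requests to them) are never better than `8/5`-competitive. -/

namespace Pool.Agent.Results.MP_b3fcb1_lc.ProjectiveBarrier

open Pool.Agent.Lib.MP_b3fcb1_lc

universe u

theorem result :
    (∀ c : ℝ, c < 8 / 5 → ∃ n₀ : ℕ, ∀ n : ℕ, n₀ ≤ n → ∀ A : RandAlg.{u} n, A.Projective →
      ∀ (π : ItemList n) (a : ℝ),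
        ∃ σ : List (Fin n), ENNReal.ofReal (c * opt π σ + a) < A.expCost π σ) ∧
    (∀ (c : ℝ) (A : ∀ n : ℕ, RandAlg.{u} n), (∀ m : ℕ, ∃ n : ℕ, m ≤ n ∧ (A n).Projective) →
      Competitive c A → 8 / 5 ≤ c) := by
  have main : ∀ c : ℝ, c < 8 / 5 → ∃ n₀ : ℕ, ∀ n : ℕ, n₀ ≤ n → ∀ A : RandAlg.{u} n,
      A.Projective → ∀ (π : ItemList n) (a : ℝ),
        ∃ σ : List (Fin n), ENNReal.ofReal (c * opt π σ + a) < A.expCost π σ :=
    fun _ hc => PR.barrier hc
  refine ⟨main, fun c A hP hA => ?_⟩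
  by_contra hc
  push Not at hc
  obtain ⟨n₀, h⟩ := main c hc
  obtain ⟨a, ha⟩ := hA
  obtain ⟨n, hn, hPn⟩ := hP n₀
  obtain ⟨σ, hσ⟩ := h n hn (A n) hPn (Equiv.refl _) a
  exact absurd hσ (not_lt.mpr (ha n (Equiv.refl _) σ))

end Pool.Agent.Results.MP_b3fcb1_lc.ProjectiveBarrier
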